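import Mathlib

/-!
# Talagrand's ultimate matching conjecture: the expectation is not `O(n)`

`X₁, …, Xₙ, Y₁, …, Yₙ` are independent and uniform on the unit square. For all exponents
`α₁, α₂ > 0` with `1/α₁ + 1/α₂ = 1/2` and *every* constant `C > 0`, the expectation of
`min_σ M_n(σ)`, divided by `n`, tends to infinity. In particular no `C` gives
`E (min_σ M_n(σ)) ≤ C n` for all `n ≥ 2`.
-/

set_option autoImplicit false
open MeasureTheory Filter Topology

namespace Pool.Agent.Results.MP_c6df36_pr.ExpectationBlowUp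

/-- The sample space of `n` points of the unit square `[0,1]²`; its measure `volume` is the
product of `2n` copies of the uniform law of `[0,1]`. -/
abbrev Pts (n : ℕ) : Type := Fin n → Fin 2 → unitInterval

/-- The cost in coordinate `j` with exponent `α`:
`∑ i, exp (((1/C) √(n / log n) |X i j - Y (σ i) j|) ^ α)`. -/
noncomputable def coordCost (C α : ℝ) (n : ℕ) (j : Fin 2) (X Y : Pts n)
    (σ : Equiv.Perm (Fin n)) : ℝ :=
  ∑ i : Fin n, Real.exp (((1 / C) * Real.sqrt ((n : ℝ) / Real.log n) *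
    |(X i j : ℝ) - (Y (σ i) j : ℝ)|) ^ α)

/-- `M_n(σ)`: the larger of the two coordinate costs, with exponent `α₁` in the first coordinate and
`α₂` in the second one. -/
noncomputable def matchingCost (C α₁ α₂ : ℝ) (n : ℕ) (X Y : Pts n) (σ : Equiv.Perm (Fin n)) : ℝ :=
  max (coordCost C α₁ n 0 X Y σ) (coordCost C α₂ n 1 X Y σ)

/-- The minimum of `M_n(σ)` over all permutations `σ`. -/
noncomputable def minCost (C α₁ α₂ : ℝ) (n : ℕ) (X Y : Pts n) : ℝ :=
  Finset.univ.inf' Finset.univ_nonempty (fun σ : Equiv.Perm (Fin n) => matchingCost C α₁ α₂ n X Y σ)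

/-- The expectation of the minimum of `M_n(σ)` for `2n` independent uniform points of the unit
square (`volume` is the product measure, a probability measure). -/
noncomputable def expectedMinCost (C α₁ α₂ : ℝ) (n : ℕ) : ℝ :=
  ∫ ω : Pts n × Pts n, minCost C α₁ α₂ n ω.1 ω.2

/-- The statement of the ultimate matching conjecture. -/
def UltimateMatching : Prop :=
  ∀ α₁ α₂ : ℝ, 0 < α₁ → 0 < α₂ → 1 / α₁ + 1 / α₂ = 1 / 2 →
    ∃ C : ℝ, 0 < C ∧ ∀ n : ℕ, 2 ≤ n → expectedMinCost C α₁ α₂ n ≤ C * n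

theorem coordCost_continuous (C α : ℝ) (hα : 0 ≤ α) (n : ℕ) (j : Fin 2) (σ : Equiv.Perm (Fin n)) :
    Continuous (fun ω : Pts n × Pts n => coordCost C α n j ω.1 ω.2 σ) := by
  unfold coordCost
  refine continuous_finset_sum _ fun i _ => Real.continuous_exp.comp ?_
  refine Continuous.rpow_const ?_ fun _ => Or.inr hα
  fun_prop

theorem minCost_continuous (C α₁ α₂ : ℝ) (h1 : 0 ≤ α₁) (h2 : 0 ≤ α₂) (n : ℕ) :
    Continuous (fun ω : Pts n × Pts n => minCost C α₁ α₂ n ω.1 ω.2) := by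
  unfold minCost matchingCost
  refine Continuous.finset_inf'_apply _ fun σ _ => ?_
  exact (coordCost_continuous C α₁ h1 n 0 σ).max (coordCost_continuous C α₂ h2 n 1 σ)

theorem minCost_nonneg (C α₁ α₂ : ℝ) (n : ℕ) (X Y : Pts n) : 0 ≤ minCost C α₁ α₂ n X Y := by
  unfold minCost
  refine Finset.le_inf' _ _ fun σ _ => ?_
  unfold matchingCost coordCost
  exact le_max_of_le_left (Finset.sum_nonneg fun i _ => (Real.exp_pos _).le)

/-- The event that all the `X` points have first coordinate at most `1/4` and all the `Y` points have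
first coordinate at least `3/4`. -/
def far (n : ℕ) : Set (Pts n × Pts n) :=
  (Set.univ.pi fun _ : Fin n => Set.univ.pi fun j : Fin 2 =>
      if j = 0 then {x : unitInterval | (x : ℝ) ≤ 1 / 4} else Set.univ) ×ˢ
    (Set.univ.pi fun _ : Fin n => Set.univ.pi fun j : Fin 2 =>
      if j = 0 then {x : unitInterval | 3 / 4 ≤ (x : ℝ)} else Set.univ)

theorem vol_le : (volume {x : unitInterval | (x : ℝ) ≤ 1 / 4}) = ENNReal.ofReal (1 / 4) := by
  rw [unitInterval.volume_apply]
  have : (Subtype.val '' {x : unitInterval | (x : ℝ) ≤ 1 / 4}) = Set.Icc (0 : ℝ) (1 / 4) := by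
    ext x
    simp only [Set.mem_image, Set.mem_setOf_eq, Set.mem_Icc]
    constructor
    · rintro ⟨y, hy, rfl⟩
      exact ⟨y.2.1, hy⟩
    · rintro ⟨h0, h1⟩
      exact ⟨⟨x, h0, by linarith⟩, h1, rfl⟩
  rw [this, Real.volume_Icc]
  norm_num

theorem vol_ge : (volume {x : unitInterval | 3 / 4 ≤ (x : ℝ)}) = ENNReal.ofReal (1 / 4) := by
  rw [unitInterval.volume_apply]
  have : (Subtype.val '' {x : unitInterval | 3 / 4 ≤ (x : ℝ)}) = Set.Icc (3 / 4 : ℝ) 1 := by
    ext x
    simp only [Set.mem_image, Set.mem_setOf_eq, Set.mem_Icc]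
    constructor
    · rintro ⟨y, hy, rfl⟩
      exact ⟨hy, y.2.2⟩
    · rintro ⟨h0, h1⟩
      exact ⟨⟨x, by linarith, h1⟩, h0, rfl⟩
  rw [this, Real.volume_Icc]
  norm_num

theorem measurable_far (n : ℕ) : MeasurableSet (far n) := by
  unfold far
  refine MeasurableSet.prod ?_ ?_
  · refine MeasurableSet.univ_pi fun _ => MeasurableSet.univ_pi fun j => ?_
    split_ifs
    · exact measurableSet_le measurable_subtype_coe measurable_const
    · exact MeasurableSet.univ
  · refine MeasurableSet.univ_pi fun _ => MeasurableSet.univ_pi fun j => ?_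
    split_ifs
    · exact measurableSet_le measurable_const measurable_subtype_coe
    · exact MeasurableSet.univ

theorem volume_far (n : ℕ) : (volume (far n)).toReal = (1 / 16 : ℝ) ^ n := by
  unfold far
  rw [Measure.volume_eq_prod, Measure.prod_prod, volume_pi_pi, volume_pi_pi]
  simp only [volume_pi_pi, Fin.prod_univ_two, if_true, Fin.isValue, one_ne_zero, if_false,
    measure_univ, mul_one, vol_le, vol_ge, Finset.prod_const, Finset.card_univ, Fintype.card_fin]
  rw [← mul_pow, ← ENNReal.ofReal_mul (by norm_num), ENNReal.toReal_pow,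
    ENNReal.toReal_ofReal (by norm_num)]
  norm_num

theorem minCost_far (C α₁ α₂ : ℝ) (hC : 0 < C) (h1 : 0 ≤ α₁) (n : ℕ) (ω : Pts n × Pts n)
    (hω : ω ∈ far n) :
    n * Real.exp ((1 / (2 * C) * Real.sqrt ((n : ℝ) / Real.log n)) ^ α₁) ≤
      minCost C α₁ α₂ n ω.1 ω.2 := by
  unfold minCost
  refine Finset.le_inf' _ _ fun σ _ => ?_
  unfold matchingCost coordCost
  refine le_max_of_le_left ?_
  have : (n : ℝ) * Real.exp ((1 / (2 * C) * Real.sqrt ((n : ℝ) / Real.log n)) ^ α₁)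
      = ∑ _i : Fin n, Real.exp ((1 / (2 * C) * Real.sqrt ((n : ℝ) / Real.log n)) ^ α₁) := by
    simp
  rw [this]
  refine Finset.sum_le_sum fun i _ => ?_
  refine Real.exp_le_exp.2 ?_
  refine Real.rpow_le_rpow (by positivity) ?_ h1
  have hX : ((ω.1 i 0 : unitInterval) : ℝ) ≤ 1 / 4 := by
    have := hω.1 i trivial 0 trivial
    simpa using this
  have hY : 3 / 4 ≤ ((ω.2 (σ i) 0 : unitInterval) : ℝ) := by
    have := hω.2 (σ i) trivial 0 trivial
    simpa using this
  have habs : 1 / 2 ≤ |((ω.1 i 0 : unitInterval) : ℝ) - ((ω.2 (σ i) 0 : unitInterval) : ℝ)| := by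
    rw [le_abs]
    right
    linarith
  have e : 1 / (2 * C) * Real.sqrt ((n : ℝ) / Real.log n) =
      (1 / C * Real.sqrt ((n : ℝ) / Real.log n)) * (1 / 2) := by
    field_simp
  rw [e]
  exact mul_le_mul_of_nonneg_left habs (by positivity)

theorem lower (C α₁ α₂ : ℝ) (hC : 0 < C) (h1 : 0 ≤ α₁) (h2 : 0 ≤ α₂) (n : ℕ) :
    (1 / 16 : ℝ) ^ n * (n * Real.exp ((1 / (2 * C) * Real.sqrt ((n : ℝ) / Real.log n)) ^ α₁)) ≤
      expectedMinCost C α₁ α₂ n := by
  have hint : Integrable (fun ω : Pts n × Pts n => minCost C α₁ α₂ n ω.1 ω.2) := by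
    have hc := minCost_continuous C α₁ α₂ h1 h2 n
    exact hc.integrable_of_hasCompactSupport (HasCompactSupport.of_compactSpace _)
  unfold expectedMinCost
  set K := n * Real.exp ((1 / (2 * C) * Real.sqrt ((n : ℝ) / Real.log n)) ^ α₁) with hK
  have h3 : ∫ ω in far n, K ≤ ∫ ω in far n, minCost C α₁ α₂ n ω.1 ω.2 := by
    refine setIntegral_mono_on (integrableOn_const (measure_ne_top _ _)) hint.integrableOn
      (measurable_far n) fun ω hω => minCost_far C α₁ α₂ hC h1 n ω hω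
  have h4 : ∫ ω in far n, minCost C α₁ α₂ n ω.1 ω.2 ≤
      ∫ ω : Pts n × Pts n, minCost C α₁ α₂ n ω.1 ω.2 :=
    setIntegral_le_integral hint (Eventually.of_forall fun ω => minCost_nonneg _ _ _ _ _ _)
  have h5 : ∫ ω in far n, K = (1 / 16 : ℝ) ^ n * K := by
    rw [setIntegral_const, smul_eq_mul, Measure.real, volume_far]
  linarith

theorem eventually_big (C α : ℝ) (hC : 0 < C) (hα : 2 < α) :
    ∀ᶠ n : ℕ in atTop, 4 * (n : ℝ) ≤ (1 / (2 * C) * Real.sqrt ((n : ℝ) / Real.log n)) ^ α := by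
  have hr : 0 < 1 - 2 / α := by
    rw [sub_pos, div_lt_one (by linarith)]
    exact hα
  have hlo := (isLittleO_log_rpow_atTop hr).def
    (c := 1 / (4 * C ^ 2 * (4 : ℝ) ^ (2 / α))) (by positivity)
  have hlo' := tendsto_natCast_atTop_atTop (R := ℝ) |>.eventually hlo
  filter_upwards [hlo', eventually_ge_atTop 2] with n hn hn2
  have hn0 : (0 : ℝ) < n := by
    have : (2 : ℝ) ≤ n := by exact_mod_cast hn2
    linarith
  have hlog : 0 < Real.log n := Real.log_pos (by
    have : (2 : ℝ) ≤ n := by exact_mod_cast hn2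
    linarith)
  rw [Real.norm_of_nonneg hlog.le, Real.norm_of_nonneg (by positivity)] at hn
  have hα0 : 0 < α := by linarith
  -- `4 C² (4n)^(2/α) ≤ n / log n`
  have hkey : 4 * C ^ 2 * (4 * (n : ℝ)) ^ (2 / α) ≤ (n : ℝ) / Real.log n := by
    rw [le_div_iff₀ hlog, Real.mul_rpow (by norm_num) hn0.le]
    have hA : 0 < 4 * C ^ 2 * (4 : ℝ) ^ (2 / α) := by positivity
    have h1 : 4 * C ^ 2 * (4 : ℝ) ^ (2 / α) * Real.log n ≤ (n : ℝ) ^ (1 - 2 / α) := by
      have := mul_le_mul_of_nonneg_left hn hA.le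
      have e : 4 * C ^ 2 * (4 : ℝ) ^ (2 / α) * (1 / (4 * C ^ 2 * (4 : ℝ) ^ (2 / α)) *
          (n : ℝ) ^ (1 - 2 / α)) = (n : ℝ) ^ (1 - 2 / α) := by
        field_simp
      rw [e] at this
      exact this
    have h2 : (n : ℝ) ^ (2 / α) * (n : ℝ) ^ (1 - 2 / α) = n := by
      rw [← Real.rpow_add hn0]
      ring_nf
      simp
    calc 4 * C ^ 2 * ((4 : ℝ) ^ (2 / α) * (n : ℝ) ^ (2 / α)) * Real.log n
        = (n : ℝ) ^ (2 / α) * (4 * C ^ 2 * (4 : ℝ) ^ (2 / α) * Real.log n) := by ring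
      _ ≤ (n : ℝ) ^ (2 / α) * (n : ℝ) ^ (1 - 2 / α) :=
          mul_le_mul_of_nonneg_left h1 (by positivity)
      _ = n := h2
  have hsq : (2 * C * (4 * (n : ℝ)) ^ (1 / α)) ^ 2 = 4 * C ^ 2 * (4 * (n : ℝ)) ^ (2 / α) := by
    rw [mul_pow, mul_pow, ← Real.rpow_natCast ((4 * (n : ℝ)) ^ (1 / α)) 2, ← Real.rpow_mul (by positivity)]
    congr 1
    · ring
    · congr 1
      push_cast
      ring
  have h3 : 2 * C * (4 * (n : ℝ)) ^ (1 / α) ≤ Real.sqrt ((n : ℝ) / Real.log n) := by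
    refine Real.le_sqrt_of_sq_le ?_
    rw [hsq]
    exact hkey
  have h4 : (4 * (n : ℝ)) ^ (1 / α) ≤ 1 / (2 * C) * Real.sqrt ((n : ℝ) / Real.log n) := by
    rw [one_div_mul_eq_div, le_div_iff₀ (by positivity)]
    linarith
  calc 4 * (n : ℝ) = ((4 * (n : ℝ)) ^ (1 / α)) ^ α := by
        rw [← Real.rpow_mul (by positivity), one_div_mul_cancel hα0.ne', Real.rpow_one]
    _ ≤ _ := Real.rpow_le_rpow (by positivity) h4 hα0.le

theorem tendsto_expected (C α₁ α₂ : ℝ) (hC : 0 < C) (h1 : 2 < α₁) (h2 : 0 ≤ α₂) :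
    Tendsto (fun n : ℕ => expectedMinCost C α₁ α₂ n / n) atTop atTop := by
  have hexp : Tendsto (fun n : ℕ => Real.exp (n : ℝ)) atTop atTop :=
    Real.tendsto_exp_atTop.comp tendsto_natCast_atTop_atTop
  refine tendsto_atTop_mono' _ ?_ hexp
  filter_upwards [eventually_big C α₁ hC h1, eventually_ge_atTop 1] with n hn hn1
  have hn0 : (0 : ℝ) < n := by exact_mod_cast hn1
  rw [le_div_iff₀ hn0]
  refine le_trans ?_ (lower C α₁ α₂ hC (by linarith) h2 n)
  have h3 : Real.exp n * 16 ^ n ≤ Real.exp (4 * (n : ℝ)) := by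
    have h16 : (16 : ℝ) ≤ Real.exp 3 := by
      have := Real.exp_one_gt_d9
      have e : Real.exp 3 = Real.exp 1 * Real.exp 1 * Real.exp 1 := by
        rw [← Real.exp_add, ← Real.exp_add]
        norm_num
      rw [e]
      have h27 : (2.7 : ℝ) ≤ Real.exp 1 := by linarith
      have h7 : (2.7 : ℝ) * 2.7 ≤ Real.exp 1 * Real.exp 1 :=
        mul_le_mul h27 h27 (by norm_num) (by positivity)
      have := mul_le_mul h7 h27 (by norm_num) (by positivity)
      linarith
    calc Real.exp n * 16 ^ n ≤ Real.exp n * (Real.exp 3) ^ n := by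
          gcongr
      _ = Real.exp (4 * (n : ℝ)) := by
          rw [← Real.exp_nat_mul, ← Real.exp_add]
          ring_nf
  have h4 : Real.exp (4 * (n : ℝ)) ≤
      Real.exp ((1 / (2 * C) * Real.sqrt ((n : ℝ) / Real.log n)) ^ α₁) := Real.exp_le_exp.2 hn
  have h5 : Real.exp n = (1 / 16 : ℝ) ^ n * (Real.exp n * 16 ^ n) := by
    rw [mul_comm (Real.exp (n : ℝ)), ← mul_assoc, ← mul_pow]
    norm_num
  calc Real.exp n * n = (1 / 16 : ℝ) ^ n * (n * (Real.exp n * 16 ^ n)) := by
        rw [h5]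
        conv_rhs => rw [← h5]
        ring
    _ ≤ _ := by
        gcongr
        exact h3.trans h4

/-- **Main theorem.** (i) The statement of the ultimate matching conjecture (with the expectation of
the minimum) is false. (ii) In fact, for all `α₁, α₂ > 0` with `1/α₁ + 1/α₂ = 1/2` and every `C > 0`,
the expectation of `min_σ M_n(σ)` divided by `n` tends to infinity with `n`. -/
theorem result :
    ¬ UltimateMatching ∧
    ∀ α₁ α₂ : ℝ, 0 < α₁ → 0 < α₂ → 1 / α₁ + 1 / α₂ = 1 / 2 → ∀ C : ℝ, 0 < C →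
      Tendsto (fun n : ℕ => expectedMinCost C α₁ α₂ n / n) atTop atTop := by
  have main : ∀ α₁ α₂ : ℝ, 0 < α₁ → 0 < α₂ → 1 / α₁ + 1 / α₂ = 1 / 2 → ∀ C : ℝ, 0 < C →
      Tendsto (fun n : ℕ => expectedMinCost C α₁ α₂ n / n) atTop atTop := by
    intro α₁ α₂ h1 h2 h C hC
    refine tendsto_expected C α₁ α₂ hC ?_ h2.le
    have h3 : 0 < 1 / α₂ := by positivity
    have h4 : 1 / α₁ < 1 / 2 := by linarith
    exact (one_div_lt_one_div h1 (by norm_num)).1 h4
  refine ⟨fun H => ?_, main⟩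
  obtain ⟨C, hC, hle⟩ := H 4 4 (by norm_num) (by norm_num) (by norm_num)
  have ht := main 4 4 (by norm_num) (by norm_num) (by norm_num) C hC
  obtain ⟨n, hn, hn2⟩ := ((ht.eventually_gt_atTop C).and (eventually_ge_atTop 2)).exists
  have hn0 : (0 : ℝ) < n := by
    have : (2 : ℝ) ≤ n := by exact_mod_cast hn2
    linarith
  rw [lt_div_iff₀ hn0] at hn
  linarith [hle n hn2]

end Pool.Agent.Results.MP_c6df36_pr.ExpectationBlowUp
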